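import Pool.Agent.H334R2.CM.Defs
set_option autoImplicit false
open scoped Matrix MatrixGroups
universe u
namespace CM

namespace LIFTaux

/-- commuting `n x` past `d a` to the right, from the relation `dn` -/
lemma nd_swap {q : ℕ} [Fact q.Prime] {M : Type*} [Monoid M]
    (n' : ZMod q → M) (d' : (ZMod q)ˣ → M)
    (hdn : ∀ a x, d' a * n' x = n' ((a : ZMod q) ^ 2 * x) * d' a) (x : ZMod q) (a : (ZMod q)ˣ) :
    n' x * d' a = d' a * n' ((((a⁻¹ : (ZMod q)ˣ) : ZMod q)) ^ 2 * x) := by
  rw [hdn]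
  congr 2
  rw [← mul_assoc, ← mul_pow, Units.mul_inv, one_pow, one_mul]

end LIFTaux

open LIFTaux in
/-- the relations in `BN` are defining relations -/
theorem LIFT {q : ℕ} [Fact q.Prime] {G : Type} [Group G] (D : BN q G) {M : Type*} [Monoid M]
    (n' : ZMod q → M) (d' : (ZMod q)ˣ → M) (w' : M) (h0 : n' 0 = 1)
    (hn : ∀ x y, n' (x + y) = n' x * n' y) (hd : ∀ a b, d' (a * b) = d' a * d' b)
    (hd' : d' (-1) = 1) (hdn : ∀ a x, d' a * n' x = n' ((a : ZMod q) ^ 2 * x) * d' a)
    (hww : w' * w' = 1) (hwd : ∀ a, w' * d' a = d' a⁻¹ * w')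
    (hwnw : ∀ a : (ZMod q)ˣ, w' * n' (a : ZMod q) * w' =
      n' (-((a⁻¹ : (ZMod q)ˣ) : ZMod q)) * w' * d' a * n' (-((a⁻¹ : (ZMod q)ˣ) : ZMod q))) :
    ∃ φ : G →* M, (∀ x, φ (D.n x) = n' x) ∧ (∀ a, φ (D.d a) = d' a) ∧ φ D.w = w' := by
  classical
  -- basic facts in `M`
  have hdneg : ∀ a, d' (-a) = d' a := by
    intro a
    have : (-a : (ZMod q)ˣ) = (-1) * a := by rw [neg_mul, one_mul]
    rw [this, hd, hd', one_mul]
  have hd1 : d' 1 = 1 := by
    have : (1 : (ZMod q)ˣ) = (-1) * (-1) := by rw [neg_mul_neg, one_mul]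
    rw [this, hd, hd', one_mul]
  -- basic facts in `G`
  have hG0 : D.n 0 = 1 := by
    have := D.n_add 0 0
    rw [add_zero] at this
    exact (mul_eq_left.mp this.symm)
  have hG1 : D.d 1 = 1 := by
    have := D.d_mul 1 1
    rw [one_mul] at this
    exact (mul_eq_left.mp this.symm)
  have hneg : ∀ a a' : (ZMod q)ˣ, a = a' ∨ a = -a' → d' a = d' a' := by
    intro a a' h
    rcases h with h | h
    · rw [h]
    · rw [h, hdneg]
  -- the map
  have key : ∀ g : G, ∃ m : M, (∀ x a, g = D.n x * D.d a → m = n' x * d' a) ∧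
      (∀ x a y, g = D.n x * D.w * D.d a * D.n y → m = n' x * w' * d' a * n' y) := by
    intro g
    rcases D.cover g with ⟨x0, a0, hg⟩ | ⟨x0, a0, y0, hg⟩
    · refine ⟨n' x0 * d' a0, ?_, ?_⟩
      · intro x a h
        have := D.inj1 x0 a0 x a (hg.symm.trans h)
        rw [this.1, hneg _ _ this.2]
      · intro x a y h
        exact absurd (hg.symm.trans h) (D.disj x0 a0 x a y)
    · refine ⟨n' x0 * w' * d' a0 * n' y0, ?_, ?_⟩
      · intro x a h
        exact absurd (h.symm.trans hg) (D.disj x a x0 a0 y0)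
      · intro x a y h
        have := D.inj2 x0 a0 y0 x a y (hg.symm.trans h)
        rw [this.1, hneg _ _ this.2.1, this.2.2]
  choose φ hφ using key
  have h1 : ∀ x a, φ (D.n x * D.d a) = n' x * d' a := fun x a => (hφ _).1 x a rfl
  have h2 : ∀ x a y, φ (D.n x * D.w * D.d a * D.n y) = n' x * w' * d' a * n' y :=
    fun x a y => (hφ _).2 x a y rfl
  have ndG := nd_swap D.n D.d D.dn
  have ndM := nd_swap n' d' hdn
  have dwG : ∀ a, D.d a * D.w = D.w * D.d a⁻¹ := by
    intro a; rw [D.wd, inv_inv]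
  have dwM : ∀ a, d' a * w' = w' * d' a⁻¹ := by
    intro a; rw [hwd, inv_inv]
  -- left multiplication by the generators
  have Pn : ∀ x h, φ (D.n x * h) = n' x * φ h := by
    intro x h
    rcases D.cover h with ⟨x0, a0, rfl⟩ | ⟨x0, a0, y0, rfl⟩
    · rw [← mul_assoc, ← D.n_add, h1, h1, hn, mul_assoc]
    · have e : D.n x * (D.n x0 * D.w * D.d a0 * D.n y0)
          = D.n (x + x0) * D.w * D.d a0 * D.n y0 := by
        rw [D.n_add]; simp only [mul_assoc]
      rw [e, h2, h2, hn]; simp only [mul_assoc]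
  have Pd : ∀ a h, φ (D.d a * h) = d' a * φ h := by
    intro a h
    rcases D.cover h with ⟨x0, a0, rfl⟩ | ⟨x0, a0, y0, rfl⟩
    · have e : D.d a * (D.n x0 * D.d a0) = D.n ((a : ZMod q) ^ 2 * x0) * D.d (a * a0) := by
        rw [← mul_assoc, D.dn, D.d_mul, mul_assoc]
      rw [e, h1, h1, hd, ← mul_assoc, ← hdn, mul_assoc]
    · have e : D.d a * (D.n x0 * D.w * D.d a0 * D.n y0)
          = D.n ((a : ZMod q) ^ 2 * x0) * D.w * D.d (a⁻¹ * a0) * D.n y0 := by
        calc D.d a * (D.n x0 * D.w * D.d a0 * D.n y0)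
            = (D.d a * D.n x0) * (D.w * D.d a0 * D.n y0) := by simp only [mul_assoc]
          _ = D.n ((a : ZMod q) ^ 2 * x0) * (D.d a * D.w) * (D.d a0 * D.n y0) := by
              rw [D.dn]; simp only [mul_assoc]
          _ = _ := by rw [dwG, D.d_mul]; simp only [mul_assoc]
      rw [e, h2, h2]
      calc n' ((a : ZMod q) ^ 2 * x0) * w' * d' (a⁻¹ * a0) * n' y0
          = n' ((a : ZMod q) ^ 2 * x0) * (w' * d' a⁻¹) * (d' a0 * n' y0) := by
            rw [hd]; simp only [mul_assoc]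
        _ = (n' ((a : ZMod q) ^ 2 * x0) * d' a) * (w' * (d' a0 * n' y0)) := by
            rw [← dwM]; simp only [mul_assoc]
        _ = _ := by rw [← hdn]; simp only [mul_assoc]
  have Pw : ∀ h, φ (D.w * h) = w' * φ h := by
    intro h
    rcases D.cover h with ⟨x0, a0, rfl⟩ | ⟨x0, a0, y0, rfl⟩
    · have e : D.w * (D.n x0 * D.d a0)
          = D.n 0 * D.w * D.d a0 * D.n ((((a0⁻¹ : (ZMod q)ˣ) : ZMod q)) ^ 2 * x0) := by
        rw [ndG, hG0, one_mul]; simp only [mul_assoc]
      rw [e, h2, h1, ndM, h0, one_mul]; simp only [mul_assoc]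
    · by_cases hx : x0 = 0
      · subst hx
        have e : D.w * (D.n 0 * D.w * D.d a0 * D.n y0)
            = D.n ((a0 : ZMod q) ^ 2 * y0) * D.d a0 := by
          rw [hG0, one_mul, ← D.dn]
          calc D.w * (D.w * D.d a0 * D.n y0) = (D.w * D.w) * (D.d a0 * D.n y0) := by
                simp only [mul_assoc]
            _ = _ := by rw [D.ww, one_mul]
        rw [e, h1, h2, h0, one_mul, ← hdn]
        calc d' a0 * n' y0 = (w' * w') * (d' a0 * n' y0) := by rw [hww, one_mul]
          _ = _ := by simp only [mul_assoc]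
      · obtain ⟨u, rfl⟩ : ∃ u : (ZMod q)ˣ, (u : ZMod q) = x0 := ⟨Units.mk0 x0 hx, rfl⟩
        set z : ZMod q := -((u⁻¹ : (ZMod q)ˣ) : ZMod q) with hz
        set t : ZMod q := ((a0⁻¹ : (ZMod q)ˣ) : ZMod q) ^ 2 * z with ht
        have e : D.w * (D.n (u : ZMod q) * D.w * D.d a0 * D.n y0)
            = D.n z * D.w * D.d (u * a0) * D.n (t + y0) := by
          calc D.w * (D.n (u : ZMod q) * D.w * D.d a0 * D.n y0)
              = (D.w * D.n (u : ZMod q) * D.w) * (D.d a0 * D.n y0) := by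
                simp only [mul_assoc]
            _ = (D.n z * D.w * D.d u) * ((D.n z * D.d a0) * D.n y0) := by
                rw [D.wnw]; simp only [mul_assoc, hz]
            _ = _ := by rw [ndG, D.d_mul, D.n_add]; simp only [mul_assoc, ht]
        rw [e, h2, h2]
        symm
        calc w' * (n' (u : ZMod q) * w' * d' a0 * n' y0)
            = (w' * n' (u : ZMod q) * w') * (d' a0 * n' y0) := by
              simp only [mul_assoc]
          _ = (n' z * w' * d' u) * ((n' z * d' a0) * n' y0) := by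
              rw [hwnw]; simp only [mul_assoc, hz]
          _ = _ := by rw [ndM, hd, hn]; simp only [mul_assoc, ht]
  have hone : φ 1 = 1 := by
    have : (1 : G) = D.n 0 * D.d 1 := by rw [hG0, hG1, one_mul]
    rw [this, h1, h0, hd1, one_mul]
  have φn : ∀ x, φ (D.n x) = n' x := by
    intro x
    have := Pn x 1
    rwa [mul_one, hone, mul_one] at this
  have φd : ∀ a, φ (D.d a) = d' a := by
    intro a
    have := Pd a 1
    rwa [mul_one, hone, mul_one] at this
  have φw : φ D.w = w' := by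
    have := Pw 1
    rwa [mul_one, hone, mul_one] at this
  have hmul : ∀ g h, φ (g * h) = φ g * φ h := by
    intro g h
    rcases D.cover g with ⟨x0, a0, rfl⟩ | ⟨x0, a0, y0, rfl⟩
    · rw [h1, mul_assoc, Pn, Pd, mul_assoc]
    · rw [h2]
      have e : D.n x0 * D.w * D.d a0 * D.n y0 * h
          = D.n x0 * (D.w * (D.d a0 * (D.n y0 * h))) := by simp only [mul_assoc]
      rw [e, Pn, Pw, Pd, Pn]; simp only [mul_assoc]
  exact ⟨{ toFun := φ, map_one' := hone, map_mul' := hmul }, φn, φd, φw⟩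

end CM
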